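import Mathlib
import Pool.Agent.Helper337.AmalgamDefs
import Pool.Agent.Helper337.AmalgamProof

/-!
# MP_e90164_al, Q1: a negative answer

For every `N` there is an admissible triple `(G; G₁, G₂)` in which the nilpotent group `B₁B₂` has
nilpotency class larger than `N`.

Construction. Let `V` be the space of binary forms of degree `k` with its action of `SL(2,ℝ)`, let
`U` be the group of upper unipotent matrices, `φ(f) = f(0,1)` (a `U`-invariant functional),
`Q = V ⋊ U` (nilpotent of class at least `k + 1`). Put `G₁ = Q × SL(2,ℝ)` with `B₁ = Q × 1` and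
`G₂ = (ℝ × V) ⋊ SL(2,ℝ)` with `B₂ = ℝ × V`. The group `P = ℝ × Q` embeds in `G₁` by
`(t, q) ↦ (q, u(t - φ q))` and in `G₂` by `(t, (v, s)) ↦ ((t, v), u(s))`. As left `P`-spaces `G₁` and
`G₂` are homeomorphic, so that both groups act on the space `G₂` by homeomorphisms and agree on `P`;
`G` is the group they generate inside the homeomorphism group (with the compact-open topology).
Then `B₁ ∩ B₂ = {(φ(v), v)}`, which contains no nontrivial `G₂`-invariant subgroup.
-/

set_option autoImplicit false

namespace Pool.Agent.Results.MP_e90164_al.Unbounded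

open Pool.Agent.Helper337.Amalgam
open scoped Pointwise

/-- The negation of Q1: for every `N` there is an admissible triple `(G; G₁, G₂)`, even with `G`
generated by `G₁` and `G₂`, for which the nilpotent group `B₁B₂` has class larger than `N`. -/
theorem result (N : ℕ) : ∃ (G : Type) (_ : Group G) (_ : TopologicalSpace G)
    (G₁ G₂ B₁ B₂ : Subgroup G), Admissible G G₁ G₂ B₁ B₂ ∧ G₁ ⊔ G₂ = ⊤ ∧
      ((B₁ ⊔ B₂ : Subgroup G) : Set G) = (B₁ : Set G) * B₂ ∧
      Group.IsNilpotent ↥(B₁ ⊔ B₂) ∧ N < Group.nilpotencyClass ↥(B₁ ⊔ B₂) :=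
  unbounded N

end Pool.Agent.Results.MP_e90164_al.Unbounded
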